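import Pool.Agent.R3.Flow4

/-!
# The determinant of an `R`-disjoint graph factors along its flower decomposition
-/

set_option autoImplicit false

namespace Pool.Agent.Results.MP_079569_co.FlowerDecomposition

open SimpleGraph

variable {V : Type*}

/-- A maximum matching (a matching with `m` edges covers `2 m` vertices, those of `M.verts`). -/
def IsMaxMatching (G : SimpleGraph V) (M : G.Subgraph) : Prop :=
  M.IsMatching ∧ ∀ M' : G.Subgraph, M'.IsMatching → M'.verts.ncard ≤ M.verts.ncard

/-- The odd cycles of `G`, as sets of edges. -/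
def oddCycles (G : SimpleGraph V) : Set (Set (Sym2 V)) :=
  {C | ∃ (v : V) (w : G.Walk v v), w.IsCycle ∧ Odd w.length ∧ C = {e | e ∈ w.edges}}

/-- The set of the vertices of a set of edges. -/
def cv (C : Set (Sym2 V)) : Set V := {v | ∃ e ∈ C, v ∈ e}

/-- `C` is an `M`-blossom: an odd cycle with `2 t + 1` vertices, `t` of whose edges are in `M`. -/
def IsBlossom (G : SimpleGraph V) (M : G.Subgraph) (C : Set (Sym2 V)) : Prop :=
  C ∈ oddCycles G ∧ (cv C).ncard = 2 * (C ∩ M.edgeSet).ncard + 1

/-- `b` is the base of the `M`-blossom `C`: the vertex of `C` not covered by the edges of `M` which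
are in `C`. -/
def IsBase (G : SimpleGraph V) (M : G.Subgraph) (C : Set (Sym2 V)) (b : V) : Prop :=
  b ∈ cv C ∧ ∀ e ∈ C ∩ M.edgeSet, b ∉ e

/-- `P` is an `M`-stem: an `M`-alternating path of even length which joins the vertex `u` left
uncovered by `M` to the base `b` and meets the blossom `C` only in `b`. -/
structure IsStem (G : SimpleGraph V) (M : G.Subgraph) (C : Set (Sym2 V)) {u b : V}
    (P : G.Walk u b) : Prop where
  path : P.IsPath
  even : Even P.length
  alt : List.IsChain (fun e e' => e ∈ M.edgeSet ↔ e' ∉ M.edgeSet) P.edges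
  unc : u ∉ M.verts
  meet : ∀ v ∈ P.support, v ∈ cv C → v = b

/-- The reach set `R(C)`: the vertices of all flowers, for all maximum matchings, whose blossom is
`C`. -/
def reach (G : SimpleGraph V) (C : Set (Sym2 V)) : Set V :=
  {v | ∃ (M : G.Subgraph) (u b : V) (P : G.Walk u b), IsMaxMatching G M ∧ IsBlossom G M C ∧
    IsBase G M C b ∧ IsStem G M C P ∧ (v ∈ P.support ∨ v ∈ cv C)}

/-- `G` is `R`-disjoint. -/
def RDisjoint (G : SimpleGraph V) : Prop :=
  (oddCycles G).Nonempty ∧ (∀ C ∈ oddCycles G, (reach G C).Nonempty) ∧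
    ∀ C ∈ oddCycles G, ∀ C' ∈ oddCycles G, C ≠ C' → Disjoint (reach G C) (reach G C')

/-- `B(G)`: the vertices in no reach set. -/
def rest (G : SimpleGraph V) : Set V := {v | ∀ C ∈ oddCycles G, v ∉ reach G C}

open Classical in
/-- The determinant of the adjacency matrix of the subgraph of `G` induced by `X`. -/
noncomputable def detA [Fintype V] (G : SimpleGraph V) (X : Set V) : ℝ :=
  ((G.induce X).adjMatrix ℝ).det

open Pool.Agent.R3.Flow (Inv Mx Alt Bl Fl RR)

section conv

variable [Fintype V] [DecidableEq V] {G : SimpleGraph V}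

lemma exists_inv (M : G.Subgraph) (hM : M.IsMatching) :
    ∃ f : V → V, Inv G f ∧ (∀ v w, M.Adj v w ↔ v ≠ w ∧ f v = w) ∧
      (∀ v, v ∈ M.verts ↔ f v ≠ v) := by
  classical
  have h1 : ∀ v, ∃ w, (v ∈ M.verts → M.Adj v w) ∧ (v ∉ M.verts → w = v) := by
    intro v
    by_cases hv : v ∈ M.verts
    · obtain ⟨w, hw, -⟩ := hM hv
      exact ⟨w, fun _ => hw, fun h => absurd hv h⟩
    · exact ⟨v, fun h => absurd h hv, fun _ => rfl⟩
  choose f hf1 hf2 using h1
  have huniq : ∀ v w w', M.Adj v w → M.Adj v w' → w = w' := by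
    intro v w w' h h'
    obtain ⟨z, -, hz⟩ := hM (M.edge_vert h)
    rw [hz w h, hz w' h']
  have hverts : ∀ v, v ∈ M.verts ↔ f v ≠ v := by
    intro v
    constructor
    · intro hv h
      have := hf1 v hv
      rw [h] at this
      exact this.ne rfl
    · intro h
      by_contra hv
      exact h (hf2 v hv)
  have hadj : ∀ v w, M.Adj v w ↔ v ≠ w ∧ f v = w := by
    intro v w
    constructor
    · intro h
      exact ⟨h.ne, huniq v _ _ (hf1 v (M.edge_vert h)) h⟩
    · rintro ⟨h1, h2⟩
      have hv : v ∈ M.verts := (hverts v).2 (by rw [h2]; exact h1.symm)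
      rw [← h2]
      exact hf1 v hv
  refine ⟨f, ⟨fun v => ?_, fun v hv => ?_⟩, hadj, hverts⟩
  · by_cases hv : f v = v
    · rw [hv, hv]
    · have h2 : M.Adj v (f v) := (hadj _ _).2 ⟨fun h => hv h.symm, rfl⟩
      exact ((hadj _ _).1 h2.symm).2
  · exact (hf1 v ((hverts v).2 hv)).adj_sub

lemma exists_sub (f : V → V) (hf : Inv G f) :
    ∃ M : G.Subgraph, M.IsMatching ∧ (∀ v w, M.Adj v w ↔ v ≠ w ∧ f v = w) ∧
      (∀ v, v ∈ M.verts ↔ f v ≠ v) := by
  refine ⟨{ verts := {v | f v ≠ v}
            Adj := fun v w => v ≠ w ∧ f v = w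
            adj_sub := ?_
            edge_vert := ?_
            symm := ?_ }, ?_, fun v w => Iff.rfl, fun v => Iff.rfl⟩
  · rintro v w ⟨h1, h2⟩
    rw [← h2]
    exact hf.adj v (by rw [h2]; exact h1.symm)
  · rintro v w ⟨h1, h2⟩
    show f v ≠ v
    rw [h2]; exact h1.symm
  · constructor
    rintro v w ⟨h1, h2⟩
    exact ⟨h1.symm, by rw [← h2, hf.inv]⟩
  · intro v hv
    have hv' : f v ≠ v := hv
    exact ⟨f v, ⟨hv'.symm, rfl⟩, fun w hw => hw.2.symm⟩

lemma ncard_verts {M : G.Subgraph} {f : V → V} (h : ∀ v, v ∈ M.verts ↔ f v ≠ v) :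
    M.verts.ncard + (Finset.univ.filter fun v => f v = v).card = Fintype.card V := by
  classical
  have h1 : M.verts = ((Finset.univ.filter fun v => ¬ f v = v : Finset V) : Set V) := by
    ext v; simp [h v]
  rw [h1, Set.ncard_coe_finset, add_comm, ← Finset.card_univ]
  exact Finset.card_filter_add_card_filter_not (s := Finset.univ) (fun v => f v = v)

lemma mx_iff {M : G.Subgraph} {f : V → V} (hM : M.IsMatching) (hf : Inv G f)
    (h : ∀ v, v ∈ M.verts ↔ f v ≠ v) : IsMaxMatching G M ↔ Mx G f := by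
  have e1 := ncard_verts h
  constructor
  · rintro ⟨-, h2⟩
    refine ⟨hf, fun g hg => ?_⟩
    obtain ⟨M', a1, -, a3⟩ := exists_sub g hg
    have e2 := ncard_verts a3
    have := h2 M' a1
    omega
  · rintro ⟨-, h2⟩
    refine ⟨hM, fun M' hM' => ?_⟩
    obtain ⟨g, a1, -, a3⟩ := exists_inv M' hM'
    have e2 := ncard_verts a3
    have := h2 g a1
    omega

lemma mem_edge_iff {M : G.Subgraph} {f : V → V} (hadj : ∀ v w, M.Adj v w ↔ v ≠ w ∧ f v = w)
    (v w : V) : s(v, w) ∈ M.edgeSet ↔ v ≠ w ∧ f v = w := by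
  rw [Subgraph.mem_edgeSet]; exact hadj v w

/-- the vertices covered by the edges of `C` which are in the matching -/
lemma count_cov {M : G.Subgraph} {f : V → V} (hf : Inv G f)
    (hadj : ∀ v w, M.Adj v w ↔ v ≠ w ∧ f v = w) (C : Set (Sym2 V)) :
    {v | s(v, f v) ∈ C ∧ f v ≠ v}.ncard = 2 * (C ∩ M.edgeSet).ncard := by
  classical
  set K : Finset V := Finset.univ.filter fun v => s(v, f v) ∈ C ∧ f v ≠ v with hK
  set E : Finset (Sym2 V) := Finset.univ.filter fun e => e ∈ C ∩ M.edgeSet with hE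
  have h1 : {v | s(v, f v) ∈ C ∧ f v ≠ v} = (K : Set V) := by ext v; simp [hK]
  have h2 : C ∩ M.edgeSet = (E : Set (Sym2 V)) := by ext v; simp [hE]
  rw [h1, h2, Set.ncard_coe_finset, Set.ncard_coe_finset]
  have hmap : ∀ v ∈ K, s(v, f v) ∈ E := by
    intro v hv
    simp only [hK, Finset.mem_filter, Finset.mem_univ, true_and] at hv
    simp only [hE, Finset.mem_filter, Finset.mem_univ, true_and]
    exact ⟨hv.1, (mem_edge_iff hadj _ _).2 ⟨hv.2.symm, rfl⟩⟩
  rw [Finset.card_eq_sum_card_fiberwise hmap]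
  have h3 : ∀ e ∈ E, (K.filter fun v => s(v, f v) = e).card = 2 := by
    intro e he
    induction e with
    | _ a b =>
      simp only [hE, Finset.mem_filter, Finset.mem_univ, true_and] at he
      obtain ⟨he1, he2⟩ := he
      obtain ⟨hab, hfa⟩ := (mem_edge_iff hadj _ _).1 he2
      have hfb : f b = a := by rw [← hfa, hf.inv]
      have : K.filter (fun v => s(v, f v) = s(a, b)) = {a, b} := by
        ext v
        simp only [hK, Finset.mem_filter, Finset.mem_univ, true_and, Finset.mem_insert,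
          Finset.mem_singleton]
        constructor
        · rintro ⟨-, h⟩
          have h4 : v ∈ s(a, b) := h ▸ Sym2.mem_mk_left v (f v)
          exact Sym2.mem_iff.1 h4
        · rintro (rfl | rfl)
          · rw [hfa]; exact ⟨⟨he1, hab.symm⟩, rfl⟩
          · rw [hfb]
            exact ⟨⟨by rw [Sym2.eq_swap]; exact he1, hab⟩, Sym2.eq_swap⟩
      rw [this, Finset.card_pair hab]
  rw [Finset.sum_congr rfl h3, Finset.sum_const, smul_eq_mul, mul_comm]

lemma bl_iff {M : G.Subgraph} {f : V → V} (hf : Inv G f)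
    (hadj : ∀ v w, M.Adj v w ↔ v ≠ w ∧ f v = w) {C : Set (Sym2 V)} (hC : C ∈ oddCycles G)
    (b : V) : (IsBlossom G M C ∧ IsBase G M C b) ↔ (b ∈ cv C ∧ Bl C f b) := by
  classical
  have hcount := count_cov hf hadj C
  have hC' : C ∈ Pool.Agent.R3.Flow.oddCycles G := hC
  have hloop := Pool.Agent.R3.Flow.loop_notMem hC'
  have hKsub : {v | s(v, f v) ∈ C ∧ f v ≠ v} ⊆ cv C := fun v hv =>
    ⟨_, hv.1, Sym2.mem_mk_left _ _⟩
  constructor
  · rintro ⟨⟨-, h1⟩, h2, h3⟩
    have hb : b ∉ {v | s(v, f v) ∈ C ∧ f v ≠ v} := by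
      rintro ⟨h4, h5⟩
      exact h3 _ ⟨h4, (mem_edge_iff hadj _ _).2 ⟨fun h => h5 h.symm, rfl⟩⟩ (Sym2.mem_mk_left _ _)
    have heq : insert b {v | s(v, f v) ∈ C ∧ f v ≠ v} = cv C := by
      refine Set.eq_of_subset_of_ncard_le ?_ ?_ (Set.toFinite _)
      · intro v hv
        rcases hv with rfl | hv
        · exact h2
        · exact hKsub hv
      · rw [Set.ncard_insert_of_notMem hb (Set.toFinite _), hcount, h1]
    refine ⟨h2, fun v hv hvb => ?_, fun h => ?_⟩
    · have hv' : v ∈ cv C := hv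
      rw [← heq] at hv'
      rcases hv' with h | h
      · exact absurd h hvb
      · exact h.1
    · apply hb
      refine ⟨h, fun h' => ?_⟩
      rw [h'] at h
      exact hloop b h
  · rintro ⟨h1, h2, h3⟩
    have hb : b ∉ {v | s(v, f v) ∈ C ∧ f v ≠ v} := fun h => h3 h.1
    have heq : insert b {v | s(v, f v) ∈ C ∧ f v ≠ v} = cv C := by
      ext v
      constructor
      · rintro (rfl | hv)
        · exact h1
        · exact hKsub hv
      · intro hv
        by_cases hvb : v = b
        · exact Or.inl hvb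
        · refine Or.inr ⟨h2 v hv hvb, fun h => ?_⟩
          have := h2 v hv hvb
          rw [h] at this
          exact hloop v this
    refine ⟨⟨hC, ?_⟩, h1, ?_⟩
    · rw [← heq, Set.ncard_insert_of_notMem hb (Set.toFinite _), hcount]
    · rintro e ⟨he1, he2⟩ hbe
      obtain ⟨w, rfl⟩ := Sym2.mem_iff_exists.1 hbe
      obtain ⟨-, h5⟩ := (mem_edge_iff hadj _ _).1 he2
      rw [← h5] at he1
      exact h3 he1

lemma alt_of_walk {M : G.Subgraph} {f : V → V}
    (hadj : ∀ v w, M.Adj v w ↔ v ≠ w ∧ f v = w) : ∀ {u b : V} (P : G.Walk u b), P.IsPath →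
    Even P.length → List.IsChain (fun e e' => e ∈ M.edgeSet ↔ e' ∉ M.edgeSet) P.edges →
    (∀ e ∈ P.edges.head?, e ∉ M.edgeSet) → Alt G f u b P.support
  | _, _, .nil, _, _, _, _ => by simpa using Alt.nil _
  | _, _, .cons _ .nil, _, he, _, _ => by
      simp at he
  | u, b, .cons (v := o) h1 (.cons (v := x) h2 P), hp, he, hc, hh => by
      simp only [Walk.edges_cons, List.isChain_cons_cons] at hc
      simp only [Walk.edges_cons, List.head?_cons, Option.mem_some_iff, forall_eq'] at hh
      have hox : s(o, x) ∈ M.edgeSet := by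
        by_contra h
        exact hh (hc.1.2 h)
      obtain ⟨hne, hfo⟩ := (mem_edge_iff hadj _ _).1 hox
      rw [Walk.cons_isPath_iff, Walk.cons_isPath_iff] at hp
      obtain ⟨⟨hp1, hp2⟩, hp3⟩ := hp
      simp only [Walk.support_cons, List.mem_cons, not_or] at hp3
      have he' : Even P.length := by
        simp only [Walk.length_cons, add_assoc] at he
        exact (Nat.even_add.1 he).2 (by decide)
      have ih := alt_of_walk hadj P hp1 he' (List.isChain_of_isChain_cons hc.2) (by
        intro e hee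
        cases hPe : P.edges with
        | nil => rw [hPe] at hee; simp at hee
        | cons e' l =>
          rw [hPe] at hee hc
          simp only [List.head?_cons, Option.mem_some_iff] at hee
          rw [← hee]
          exact (List.isChain_cons_cons.1 hc.2).1.1 hox)
      subst hfo
      rw [Walk.support_cons, Walk.support_cons]
      exact Alt.cons h1 hp3.2 hp2 hne.symm ih

lemma walk_of_alt {M : G.Subgraph} {f : V → V} (hf : Inv G f)
    (hadj : ∀ v w, M.Adj v w ↔ v ≠ w ∧ f v = w) {u b : V} {Q : List V} (h : Alt G f u b Q)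
    (hu : ∀ o ∈ Q, f u = o → o = u) : ∃ P : G.Walk u b, P.support = Q ∧ P.IsPath ∧
      Even P.length ∧ List.IsChain (fun e e' => e ∈ M.edgeSet ↔ e' ∉ M.edgeSet) P.edges ∧
      (∀ e ∈ P.edges.head?, e ∉ M.edgeSet) := by
  induction h with
  | nil b => exact ⟨.nil, by simp, by simp, by simp, by simp, by simp⟩
  | @cons y o b Q ha hy ho hne hQ ih =>
    obtain ⟨P, h1, h2, h3, h4, h5⟩ := ih (by
      intro o' ho' h
      rw [hf.inv] at h
      exact absurd (h ▸ ho') ho)
    have hox : G.Adj o (f o) := hf.adj o hne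
    have hnot : s(y, o) ∉ M.edgeSet := by
      rw [mem_edge_iff hadj]
      rintro ⟨c1, c2⟩
      exact c1 (hu o (by simp) c2).symm
    have hin : s(o, f o) ∈ M.edgeSet := (mem_edge_iff hadj _ _).2 ⟨hne.symm, rfl⟩
    refine ⟨.cons ha (.cons hox P), by simp [h1], ?_, ?_, ?_, ?_⟩
    · rw [Walk.cons_isPath_iff, Walk.cons_isPath_iff, Walk.support_cons, h1]
      refine ⟨⟨h2, ho⟩, ?_⟩
      simp only [List.mem_cons, not_or]
      exact ⟨ha.ne, hy⟩
    · rw [Walk.length_cons, Walk.length_cons, add_assoc]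
      exact h3.add (by decide)
    · rw [Walk.edges_cons, Walk.edges_cons, List.isChain_cons_cons]
      refine ⟨⟨fun h => absurd h hnot, fun h => absurd hin h⟩, ?_⟩
      cases hPe : P.edges with
      | nil => simp
      | cons e l =>
        rw [hPe] at h4 h5
        rw [List.isChain_cons_cons]
        have h6 : e ∉ M.edgeSet := h5 e (by simp)
        exact ⟨⟨fun _ => h6, fun _ => hin⟩, h4⟩
    · intro e he
      simp only [Walk.edges_cons, List.head?_cons, Option.mem_some_iff] at he
      rw [← he]; exact hnot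

lemma head_notMem {M : G.Subgraph} {u b : V} (P : G.Walk u b) (hu : u ∉ M.verts) :
    ∀ e ∈ P.edges.head?, e ∉ M.edgeSet := by
  intro e he
  cases P with
  | nil => simp at he
  | cons h P =>
    simp only [Walk.edges_cons, List.head?_cons, Option.mem_some_iff] at he
    rw [← he]
    intro h'
    exact hu (M.edge_vert (Subgraph.mem_edgeSet.1 h'))

lemma reach_eq {C : Set (Sym2 V)} (hC : C ∈ oddCycles G) : reach G C = RR G C := by
  ext v
  constructor
  · rintro ⟨M, u, b, P, h1, h2, h3, h4, h5⟩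
    obtain ⟨f, a1, a2, a3⟩ := exists_inv M h1.1
    have hm := (mx_iff h1.1 a1 a3).1 h1
    obtain ⟨b1, b2⟩ := (bl_iff a1 a2 hC b).1 ⟨h2, h3⟩
    have halt := alt_of_walk a2 P h4.path h4.even h4.alt (head_notMem P h4.unc)
    refine ⟨f, u, b, P.support, ⟨hm, ?_, halt, h4.meet, b1, b2⟩, h5⟩
    by_contra hcon
    exact h4.unc ((a3 u).2 hcon)
  · rintro ⟨f, y, b, Q, F, h⟩
    obtain ⟨M, a1, a2, a3⟩ := exists_sub f F.mx.1
    obtain ⟨P, p1, p2, p3, p4, -⟩ := walk_of_alt F.mx.1 a2 F.alt (by
      intro o _ h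
      rw [← h, F.unc])
    obtain ⟨c1, c2⟩ := (bl_iff F.mx.1 a2 hC b).2 ⟨F.base, F.bl⟩
    refine ⟨M, y, b, P, (mx_iff a1 F.mx.1 a3).2 F.mx, c1, c2, ⟨p2, p3, p4, ?_, ?_⟩, ?_⟩
    · intro hv
      exact (a3 y).1 hv F.unc
    · rw [p1]; exact F.meet
    · rw [p1]; exact h

end conv

open Classical in
/-- **The flower decomposition.** If `G` is `R`-disjoint, then the determinant of its adjacency
matrix is the product of the determinants of the adjacency matrices of the subgraphs induced by the
parts `B(G), R_1, …, R_k` of its flower decomposition. -/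
theorem result {V : Type*} [Fintype V] (G : SimpleGraph V) (hG : RDisjoint G) :
    (G.adjMatrix ℝ).det = detA G (rest G) *
      ∏ C ∈ (Set.toFinite (oddCycles G)).toFinset, detA G (reach G C) := by
  obtain ⟨-, h1, h2⟩ := hG
  have key := Pool.Agent.R3.Flow.factor G
    (fun C hC => by rw [← reach_eq (show C ∈ oddCycles G from hC)]; exact h1 C hC)
    (fun C hC C' hC' hne => by
      rw [← reach_eq (show C ∈ oddCycles G from hC), ← reach_eq (show C' ∈ oddCycles G from hC')]
      exact h2 C hC C' hC' hne)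
  rw [key]
  have e1 : rest G = {v | ∀ C ∈ Pool.Agent.R3.Flow.oddCycles G, v ∉ RR G C} := by
    ext v
    constructor
    · intro h C hC
      rw [← reach_eq (show C ∈ oddCycles G from hC)]; exact h C hC
    · intro h C hC
      rw [reach_eq hC]; exact h C hC
  rw [e1]
  congr 1
  refine Finset.prod_congr rfl fun C hC => ?_
  rw [reach_eq (show C ∈ oddCycles G from (Set.Finite.mem_toFinset _).1 hC)]
  rfl

end Pool.Agent.Results.MP_079569_co.FlowerDecomposition
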